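import Mathlib

namespace Pool.Agent.Results.MP_59cc96_an.Yes

open Filter Topology

variable {K E : Type} [RCLike K] [NormedAddCommGroup E] [NormedSpace K E]

/-- the span of the first `n` vectors -/
def P (K : Type) {E : Type} [RCLike K] [NormedAddCommGroup E] [NormedSpace K E]
    (x : ℕ → E) (n : ℕ) : Submodule K E := Submodule.span K (x '' Set.Iio n)

theorem mem_P (x : ℕ → E) {i n : ℕ} (h : i < n) : x i ∈ P K x n :=
  Submodule.subset_span ⟨i, h, rfl⟩

/-- the partial sum of the first `n` terms, as an element of the span -/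
def S (x : ℕ → E) (α : ℕ → K) (n : ℕ) : P K x n :=
  ⟨∑ i ∈ Finset.range n, α i • x i,
    Submodule.sum_mem _ fun _ hi => Submodule.smul_mem _ _ (mem_P x (Finset.mem_range.1 hi))⟩

theorem result {K E : Type} [RCLike K] [NormedAddCommGroup E] [NormedSpace K E] [CompleteSpace E]
    (x : ℕ → E) (f : ℕ → E →L[K] K) (_hd : Dense (Submodule.span K (Set.range x) : Set E))
    (hf : ∀ i j, f i (x j) = if i = j then 1 else 0)
    (v : ∀ n, P K x n →ₗ[K] P K x n)
    (hv : ∀ y, Tendsto (fun n => (v n (S x (fun i => f i y) n) : E)) atTop (𝓝 y)) :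
    ∃ w : ∀ n, P K x n →ₗ[K] P K x n,
      (∀ i, Tendsto (fun n => if h : i < n then (w n ⟨x i, mem_P x h⟩ : E) else 0) atTop
        (𝓝 (x i))) ∧
      ∀ y, ∃! α : ℕ → K, Tendsto (fun n => (w n (S x α n) : E)) atTop (𝓝 y) := by
  have hS : ∀ (α : ℕ → K) i n, i < n → f i (S x α n) = α i := by
    intro α i n h
    simp [S, map_sum, hf, h]
  let T : ℕ → E →ₗ[K] E := fun j => (P K x j).subtype ∘ₗ v j ∘ₗ
    { toFun := fun y => S x (fun i => f i y) j
      map_add' := fun a b => by ext; simp [S, add_smul, Finset.sum_add_distrib]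
      map_smul' := fun a b => by ext; simp [S, Finset.smul_sum, mul_smul] }
  have hT : ∀ j y, T j y = v j (S x (fun i => f i y) j) := fun _ _ => rfl
  have hTS : ∀ (α : ℕ → K) j n, j ≤ n → T j (S x α n) = v j (S x α j) := by
    intro α j n h
    rw [hT]
    congr 2
    ext
    show ∑ i ∈ Finset.range j, f i (S x α n) • x i = ∑ i ∈ Finset.range j, α i • x i
    exact Finset.sum_congr rfl fun i hi => by
      rw [hS α i n ((Finset.mem_range.1 hi).trans_le h)]
  let c : ℕ → K := fun i => ((‖f i‖ * ‖x i‖ + 1 : ℝ) : K)⁻¹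
  have hp : ∀ i, 0 < ‖f i‖ * ‖x i‖ + 1 := fun i => by positivity
  let ι : ℕ → ℕ := fun n => (Nat.unpair (n / 2)).1
  have hι : ∀ n, n % 2 = 1 → ι n < n := fun n hn =>
    (Nat.unpair_left_le _).trans_lt (by omega)
  let W : ℕ → E →ₗ[K] E := fun n => T (n / 2) + if n % 2 = 1 then
    ((c (ι n) • (f (ι n) : E →ₗ[K] K)) ∘ₗ (LinearMap.id - T (n / 2))).smulRight (x (ι n)) else 0
  have hW : ∀ n y, W n y = T (n / 2) y + if n % 2 = 1 then
      (c (ι n) * (f (ι n) y - f (ι n) (T (n / 2) y))) • x (ι n) else 0 := by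
    intro n y
    simp only [W, LinearMap.add_apply]
    split_ifs <;> simp [mul_sub]
  have hWP : ∀ n y, W n y ∈ P K x n := by
    intro n y
    rw [hW]
    refine Submodule.add_mem _ (Submodule.span_mono (Set.image_mono (Set.Iio_subset_Iio
      (Nat.div_le_self n 2))) (v (n / 2) _).2) ?_
    split_ifs with h
    · exact Submodule.smul_mem _ _ (mem_P x (hι n h))
    · exact Submodule.zero_mem _
  have h2 : Tendsto (fun n : ℕ => n / 2) atTop atTop :=
    tendsto_atTop.2 fun b => eventually_atTop.2 ⟨2 * b, fun n hn => by omega⟩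
  have hWy : ∀ y, Tendsto (fun n => W n y) atTop (𝓝 y) := by
    intro y
    have h1 : Tendsto (fun n => T (n / 2) y) atTop (𝓝 y) := (hv y).comp h2
    simp only [hW]
    have h3 := h1.add (b := 0) (g := fun n => if n % 2 = 1 then
      (c (ι n) * (f (ι n) y - f (ι n) (T (n / 2) y))) • x (ι n) else 0) ?_
    · simpa using h3
    have h4 : Tendsto (fun n => ‖y - T (n / 2) y‖) atTop (𝓝 0) := by
      simpa using ((tendsto_const_nhds (x := y)).sub h1).norm
    refine squeeze_zero_norm (fun n => ?_) h4
    split_ifs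
    · rw [norm_smul, norm_mul, ← map_sub]
      simp only [c, norm_inv, RCLike.norm_ofReal, abs_of_pos (hp _)]
      rw [inv_mul_eq_div, div_mul_eq_mul_div, div_le_iff₀ (hp _)]
      have := (f (ι n)).le_opNorm (y - T (n / 2) y)
      nlinarith [norm_nonneg (x (ι n)), norm_nonneg (y - T (n / 2) y),
        mul_le_mul_of_nonneg_right this (norm_nonneg (x (ι n)))]
    · simp
  refine ⟨fun n => ((W n).codRestrict _ (hWP n)).domRestrict _, fun i => ?_,
    fun y => ⟨fun i => f i y, ?_, fun α hα => ?_⟩⟩
  · refine (hWy (x i)).congr' ?_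
    filter_upwards [eventually_gt_atTop i] with n hn
    simp [hn]
  · refine (hWy y).congr fun n => ?_
    show W n y = W n (S x (fun i => f i y) n)
    rw [hW, hW, hTS _ _ _ (Nat.div_le_self n 2), hT]
    split_ifs with h
    · rw [hS _ _ _ (hι n h)]
    · rfl
  · funext i
    replace hα : Tendsto (fun n => W n (S x α n)) atTop (𝓝 y) := hα
    have hp' : Tendsto (fun m => Nat.pair i m) atTop atTop :=
      tendsto_atTop_mono (fun m => Nat.right_le_pair i m) tendsto_id
    have e1 : Tendsto (fun m => (v (Nat.pair i m) (S x α (Nat.pair i m)) : E)) atTop (𝓝 y) := by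
      refine (hα.comp (tendsto_atTop_mono (f := fun m => Nat.pair i m)
        (g := fun m => 2 * Nat.pair i m) (fun m => by omega) hp')).congr fun m => ?_
      simp only [Function.comp, hW]
      rw [if_neg (by omega), add_zero, hTS _ _ _ (Nat.div_le_self _ 2)]
      rw [show 2 * Nat.pair i m / 2 = Nat.pair i m by omega]
    have e2 : Tendsto (fun m => (v (Nat.pair i m) (S x α (Nat.pair i m)) : E) +
        (c i * (α i - f i (v (Nat.pair i m) (S x α (Nat.pair i m))))) • x i) atTop (𝓝 y) := by
      refine (hα.comp (tendsto_atTop_mono (f := fun m => Nat.pair i m)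
        (g := fun m => 2 * Nat.pair i m + 1) (fun m => by omega) hp')).congr fun m => ?_
      have e : (2 * Nat.pair i m + 1) / 2 = Nat.pair i m := by omega
      have e' : ι (2 * Nat.pair i m + 1) = i := by simp only [ι, e, Nat.unpair_pair]
      simp only [Function.comp, hW]
      rw [if_pos (by omega), hTS _ _ _ (Nat.div_le_self _ 2), hS _ _ _ (hι _ (by omega)), e', e]
    have e3 := e1.add (((tendsto_const_nhds (x := c i)).mul ((tendsto_const_nhds (x := α i)).sub
      (((f i).continuous.tendsto y).comp e1))).smul (tendsto_const_nhds (x := x i)))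
    have e4 := congrArg (f i) (tendsto_nhds_unique e3 e2)
    have hc : c i ≠ 0 := inv_ne_zero (by exact_mod_cast (hp i).ne')
    simp only [map_add, map_smul, hf, if_true, smul_eq_mul, mul_one, add_eq_left,
      mul_eq_zero, hc, false_or] at e4
    exact sub_eq_zero.1 e4

end Pool.Agent.Results.MP_59cc96_an.Yes
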